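import Mathlib

/-!
Translating (ordered) binary decision diagrams into mental programs: a quasi-polynomial translation.
-/

set_option autoImplicit false

open Finset

namespace Pool.Agent.Results.MP_811ee8_lc.QuasiPolynomial

/-- Boolean formulas. -/
inductive Formula (V : Type)
  | top : Formula V
  | bot : Formula V
  | var : V → Formula V
  | neg : Formula V → Formula V
  | and : Formula V → Formula V → Formula V
  | or : Formula V → Formula V → Formula V

/-- Truth of a formula in the state `s`. -/
def Formula.Holds {V : Type} (s : Set V) : Formula V → Prop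
  | .top => True
  | .bot => False
  | .var p => p ∈ s
  | .neg β => ¬ β.Holds s
  | .and β γ => β.Holds s ∧ γ.Holds s
  | .or β γ => β.Holds s ∨ γ.Holds s

/-- Number of symbols of a formula; the two parentheses of `(β ∧ γ)` and `(β ∨ γ)` are counted. -/
def Formula.len {V : Type} : Formula V → ℕ
  | .top => 1
  | .bot => 1
  | .var _ => 1
  | .neg β => β.len + 1
  | .and β γ => β.len + γ.len + 3
  | .or β γ => β.len + γ.len + 3

/-- Mental programs: `p ← ⊤`, `p ← ⊥`, tests, union, composition, intersection. -/
inductive Program (V : Type)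
  | setTop : V → Program V
  | setBot : V → Program V
  | test : Formula V → Program V
  | union : Program V → Program V → Program V
  | comp : Program V → Program V → Program V
  | inter : Program V → Program V → Program V

/-- The relation on states denoted by a program. -/
def Program.Rel {V : Type} : Program V → Set V → Set V → Prop
  | .setTop p, s, t => t = s ∪ {p}
  | .setBot p, s, t => t = s \ {p}
  | .test β, s, t => t = s ∧ β.Holds s
  | .union π ρ, s, t => π.Rel s t ∨ ρ.Rel s t
  | .comp π ρ, s, t => ∃ r, π.Rel s r ∧ ρ.Rel r t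
  | .inter π ρ, s, t => π.Rel s t ∧ ρ.Rel s t

/-- Number of symbols of a program; the two parentheses of a binary operation are counted. -/
def Program.len {V : Type} : Program V → ℕ
  | .setTop _ => 3
  | .setBot _ => 3
  | .test β => β.len + 1
  | .union π ρ => π.len + ρ.len + 3
  | .comp π ρ => π.len + ρ.len + 3
  | .inter π ρ => π.len + ρ.len + 3

/-- An ordered binary decision diagram over the variables `W`: the nodes are `0, …, size - 1`;
`node u = inl b` says that `u` is the leaf `b`, and `node u = inr (w, l, h)` says that `u` is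
labelled by the variable `w`, with low child `l` and high child `h`; the variables increase in a
fixed linear order along every edge. -/
structure BDD (W : Type) where
  size : ℕ
  root : Fin size
  node : Fin size → Bool ⊕ (W × Fin size × Fin size)
  order : LinearOrder W
  ordered : ∀ u w l h, node u = Sum.inr (w, l, h) → ∀ v, (v = l ∨ v = h) →
    ∀ w' l' h', node v = Sum.inr (w', l', h') → order.lt w w'

open Classical in
/-- One step of the evaluation under the assignment `x`; leaves are kept. -/
noncomputable def BDD.next {W : Type} (B : BDD W) (x : W → Prop) (u : Fin B.size) : Fin B.size :=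
  match B.node u with
  | Sum.inl _ => u
  | Sum.inr (w, l, h) => if x w then h else l

/-- The assignment `x` satisfies `B`: the evaluation path from the root ends in the leaf `1`. -/
def BDD.Sat {W : Type} (B : BDD W) (x : W → Prop) : Prop :=
  ∃ n : ℕ, B.node ((B.next x)^[n] B.root) = Sum.inl true

/-- The assignment `s ∪ t'` of the variables `V ∪ V'`. -/
def pair {V : Type} (s t : Set V) : V ⊕ V → Prop
  | Sum.inl p => p ∈ s
  | Sum.inr p => p ∈ t

/-- The relation represented by a BDD over `V ∪ V'`. -/
def BDD.Rel {V : Type} (B : BDD (V ⊕ V)) (s t : Set V) : Prop := B.Sat (pair s t)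

/-- A translation of BDDs to mental programs, for all finite vocabularies `V`. -/
def Translation : Type 1 := (V : Type) → [Fintype V] → BDD (V ⊕ V) → Program V

/-- Correctness of a translation. -/
def Translation.Correct (τ : Translation) : Prop :=
  ∀ (V : Type) [Fintype V] (B : BDD (V ⊕ V)) (s t : Set V), (τ V B).Rel s t ↔ B.Rel s t

/-! ### Evaluation paths -/

theorem iterate_bounded {N : ℕ} (f : Fin N → Fin N) (u : Fin N) (n : ℕ) :
    ∃ m ≤ N, f^[m] u = f^[n] u := by
  have hcard : Fintype.card (Fin N) < Fintype.card (Fin (N + 1)) := by simp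
  obtain ⟨i, j, hij, he⟩ := Fintype.exists_ne_map_eq_of_card_lt
    (fun i : Fin (N + 1) => f^[(i : ℕ)] u) hcard
  wlog hlt : (i : ℕ) < j generalizing i j
  · exact this j i hij.symm he.symm (lt_of_le_of_ne (not_lt.1 hlt)
      (fun h => hij (Fin.ext h.symm)))
  induction n using Nat.strong_induction_on with
  | _ n ih =>
    rcases le_or_gt n N with h | h
    · exact ⟨n, h, rfl⟩
    · have hj : (j : ℕ) ≤ N := Nat.lt_succ_iff.1 j.2
      obtain ⟨m, hm, e⟩ := ih (n - (j - i)) (by omega)
      refine ⟨m, hm, e.trans ?_⟩
      have e1 : n - (j - i) = (n - j) + i := by omega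
      have e2 : n = (n - j) + j := by omega
      conv_rhs => rw [e2]
      rw [e1, Function.iterate_add_apply, Function.iterate_add_apply]
      exact congrArg _ he

theorem next_leaf {W : Type} (B : BDD W) (x : W → Prop) (u : Fin B.size) (b : Bool)
    (h : B.node u = Sum.inl b) (n : ℕ) : (B.next x)^[n] u = u := by
  have h1 : B.next x u = u := by unfold BDD.next; rw [h]
  exact Function.iterate_fixed h1 n

theorem sat_iff {W : Type} (B : BDD W) (x : W → Prop) (L : ℕ) (hL : B.size ≤ L) :
    B.Sat x ↔ B.node ((B.next x)^[L] B.root) = Sum.inl true := by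
  constructor
  · rintro ⟨n, hn⟩
    obtain ⟨m, hm, e⟩ := iterate_bounded (B.next x) B.root n
    rw [← e] at hn
    obtain ⟨d, rfl⟩ := Nat.exists_eq_add_of_le (hm.trans hL)
    rw [Nat.add_comm, Function.iterate_add_apply, next_leaf B x _ true hn]
    exact hn
  · intro h; exact ⟨L, h⟩

/-! ### The building blocks -/

section blocks

variable {V : Type}

/-- The empty relation. -/
def none : Program V := .test .bot

/-- The union of a list of programs. -/
def unions : List (Program V) → Program V
  | [] => none
  | π :: l => .union π (unions l)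

theorem rel_unions (l : List (Program V)) (s t : Set V) :
    (unions l).Rel s t ↔ ∃ π ∈ l, π.Rel s t := by
  induction l with
  | nil => simp [unions, none, Program.Rel, Formula.Holds]
  | cons π l ih => simp [unions, Program.Rel, ih]

theorem len_unions (l : List (Program V)) (K : ℕ) (h : ∀ π ∈ l, π.len ≤ K) :
    (unions l).len ≤ l.length * (K + 3) + 2 := by
  induction l with
  | nil => simp [unions, none, Program.len, Formula.len]
  | cons π l ih =>
    have h1 := h π (by simp)
    have h2 := ih (fun ρ hρ => h ρ (by simp [hρ]))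
    simp only [unions, Program.len, List.length_cons]
    nlinarith

/-- Arbitrary change of the variables in the list. -/
def change : List V → Program V
  | [] => .test .top
  | p :: l => .comp (.union (.setTop p) (.setBot p)) (change l)

theorem rel_change (l : List V) (s t : Set V) :
    (change l).Rel s t ↔ ∀ p, p ∉ l → (p ∈ t ↔ p ∈ s) := by
  induction l generalizing s with
  | nil =>
    simp only [change, Program.Rel, Formula.Holds, and_true, List.not_mem_nil, not_false_eq_true,
      forall_const]
    constructor
    · rintro rfl p; rfl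
    · intro h; exact Set.ext h
  | cons q l ih =>
    simp only [change, Program.Rel, ih, List.mem_cons, not_or]
    constructor
    · rintro ⟨r, hr, h⟩ p ⟨hpq, hpl⟩
      rw [h p hpl]
      rcases hr with rfl | rfl
      · simp [hpq]
      · simp [hpq]
    · intro h
      by_cases hq : q ∈ t
      · refine ⟨s ∪ {q}, Or.inl rfl, fun p hp => ?_⟩
        by_cases hpq : p = q
        · subst hpq; simp [hq]
        · rw [h p ⟨hpq, hp⟩]; simp [hpq]
      · refine ⟨s \ {q}, Or.inr rfl, fun p hp => ?_⟩
        by_cases hpq : p = q
        · subst hpq; simp [hq]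
        · rw [h p ⟨hpq, hp⟩]; simp [hpq]

theorem len_change (l : List V) : (change l).len = 12 * l.length + 2 := by
  induction l with
  | nil => rfl
  | cons p l ih => simp only [change, Program.len, ih, List.length_cons]; ring

variable [Fintype V]

/-- The universal relation. -/
noncomputable def univ' : Program V := change (Finset.univ : Finset V).toList

theorem rel_univ (s t : Set V) : (univ' : Program V).Rel s t := by
  unfold univ'
  rw [rel_change]
  intro p hp
  exact absurd (by simp) hp

theorem len_univ : (univ' : Program V).len = 12 * Fintype.card V + 2 := by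
  unfold univ'
  rw [len_change]
  simp

/-- The program testing a literal. -/
noncomputable def lit : V ⊕ V → Bool → Program V
  | Sum.inl p, true => .comp (.test (.var p)) univ'
  | Sum.inl p, false => .comp (.test (.neg (.var p))) univ'
  | Sum.inr p, true => .comp univ' (.test (.var p))
  | Sum.inr p, false => .comp univ' (.test (.neg (.var p)))

theorem rel_lit (w : V ⊕ V) (b : Bool) (s t : Set V) :
    (lit w b).Rel s t ↔ (b = true ↔ pair s t w) := by
  rcases w with p | p <;> cases b <;> simp only [lit, Program.Rel, Formula.Holds, pair]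
  · constructor
    · rintro ⟨r, ⟨rfl, h⟩, _⟩; simpa using h
    · intro h; exact ⟨s, ⟨rfl, by simpa using h⟩, rel_univ _ _⟩
  · constructor
    · rintro ⟨r, ⟨rfl, h⟩, _⟩; simpa using h
    · intro h; exact ⟨s, ⟨rfl, by simpa using h⟩, rel_univ _ _⟩
  · constructor
    · rintro ⟨r, _, ⟨rfl, h⟩⟩; simpa using h
    · intro h; exact ⟨t, rel_univ _ _, ⟨rfl, by simpa using h⟩⟩
  · constructor
    · rintro ⟨r, _, ⟨rfl, h⟩⟩; simpa using h
    · intro h; exact ⟨t, rel_univ _ _, ⟨rfl, by simpa using h⟩⟩

theorem len_lit (w : V ⊕ V) (b : Bool) : (lit w b).len ≤ 12 * Fintype.card V + 8 := by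
  rcases w with p | p <;> cases b <;>
    simp only [lit, Program.len, Formula.len, len_univ] <;> omega

/-- The program for one evaluation step. -/
noncomputable def stepProg (B : BDD (V ⊕ V)) (u v : Fin B.size) : Program V :=
  match B.node u with
  | Sum.inl _ => if v = u then univ' else none
  | Sum.inr (w, l, h) =>
    .union (if v = h then lit w true else none) (if v = l then lit w false else none)

omit [Fintype V] in
theorem rel_none (s t : Set V) : ¬ (none : Program V).Rel s t := by
  simp [none, Program.Rel, Formula.Holds]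

theorem rel_stepProg (B : BDD (V ⊕ V)) (u v : Fin B.size) (s t : Set V) :
    (stepProg B u v).Rel s t ↔ B.next (pair s t) u = v := by
  unfold stepProg BDD.next
  rcases B.node u with b | ⟨w, l, h⟩
  · simp only
    split_ifs with hv
    · simp [rel_univ, hv]
    · simp only [rel_none, false_iff]
      exact fun h => hv h.symm
  · simp only [Program.Rel]
    by_cases hx : pair s t w
    · rw [if_pos hx]
      constructor
      · rintro (h1 | h1)
        · split_ifs at h1 with hv
          · exact hv.symm
          · exact absurd h1 (rel_none s t)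
        · split_ifs at h1 with hv
          · rw [rel_lit] at h1
            simp [hx] at h1
          · exact absurd h1 (rel_none s t)
      · intro hv
        left
        rw [if_pos hv.symm, rel_lit]
        simp [hx]
    · rw [if_neg hx]
      constructor
      · rintro (h1 | h1)
        · split_ifs at h1 with hv
          · rw [rel_lit] at h1
            simp [hx] at h1
          · exact absurd h1 (rel_none s t)
        · split_ifs at h1 with hv
          · exact hv.symm
          · exact absurd h1 (rel_none s t)
      · intro hv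
        right
        rw [if_pos hv.symm, rel_lit]
        simp [hx]

theorem len_stepProg (B : BDD (V ⊕ V)) (u v : Fin B.size) :
    (stepProg B u v).len ≤ 24 * Fintype.card V + 19 := by
  unfold stepProg
  have hn : (none : Program V).len = 2 := rfl
  rcases B.node u with b | ⟨w, l, h⟩
  · simp only
    split_ifs
    · rw [len_univ]; omega
    · rw [hn]; omega
  · simp only [Program.len]
    have h1 := len_lit w true
    have h2 := len_lit w false
    split_ifs <;> omega

/-- The program for `2 ^ j` evaluation steps, by divide and conquer. -/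
noncomputable def reach (B : BDD (V ⊕ V)) : ℕ → Fin B.size → Fin B.size → Program V
  | 0, u, v => stepProg B u v
  | j + 1, u, v =>
    unions ((List.finRange B.size).map fun w => .inter (reach B j u w) (reach B j w v))

theorem rel_reach (B : BDD (V ⊕ V)) (j : ℕ) (u v : Fin B.size) (s t : Set V) :
    (reach B j u v).Rel s t ↔ (B.next (pair s t))^[2 ^ j] u = v := by
  induction j generalizing u v with
  | zero => simpa [reach] using rel_stepProg B u v s t
  | succ j ih =>
    simp only [reach, rel_unions, List.mem_map, List.mem_finRange, true_and]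
    rw [pow_succ, mul_two, Function.iterate_add_apply]
    constructor
    · rintro ⟨_, ⟨w, rfl⟩, h1, h2⟩
      rw [ih] at h1 h2
      rw [h1, h2]
    · intro h
      exact ⟨_, ⟨(B.next (pair s t))^[2 ^ j] u, rfl⟩, (ih _ _).2 rfl, (ih _ _).2 h⟩

theorem len_reach (B : BDD (V ⊕ V)) (j : ℕ) (u v : Fin B.size) :
    (reach B j u v).len ≤ (10 * B.size) ^ j * (24 * Fintype.card V + 19) := by
  induction j generalizing u v with
  | zero => simpa [reach] using len_stepProg B u v
  | succ j ih =>
    have hN : 1 ≤ B.size := Nat.one_le_iff_ne_zero.2 (fun h => by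
      have := u.2; omega)
    set K := (10 * B.size) ^ j * (24 * Fintype.card V + 19) with hK
    have hK1 : 19 ≤ K := by
      have h1 : 1 ≤ (10 * B.size) ^ j := Nat.one_le_pow _ _ (by omega)
      calc 19 ≤ 1 * (24 * Fintype.card V + 19) := by omega
        _ ≤ K := Nat.mul_le_mul_right _ h1
    have h := len_unions ((List.finRange B.size).map fun w =>
      Program.inter (reach B j u w) (reach B j w v)) (2 * K + 3) (by
        intro π hπ
        simp only [List.mem_map] at hπ
        obtain ⟨w, _, rfl⟩ := hπ
        have := ih u w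
        have := ih w v
        simp only [Program.len]
        omega)
    simp only [List.length_map, List.length_finRange] at h
    calc (reach B (j + 1) u v).len ≤ B.size * (2 * K + 3 + 3) + 2 := h
      _ ≤ 10 * B.size * K := by nlinarith
      _ = (10 * B.size) ^ (j + 1) * (24 * Fintype.card V + 19) := by rw [hK]; ring

end blocks

open Classical in
/-- The quasi-polynomial translation. -/
noncomputable def trans : Translation := fun _ _ B =>
  unions (((List.finRange B.size).filter fun v => B.node v = Sum.inl true).map fun v =>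
    reach B (Nat.clog 2 B.size) B.root v)

theorem trans_correct : trans.Correct := by
  intro V _ B s t
  unfold trans BDD.Rel
  rw [sat_iff B (pair s t) (2 ^ Nat.clog 2 B.size) (Nat.le_pow_clog (by norm_num) _), rel_unions]
  simp only [List.mem_map, List.mem_filter, List.mem_finRange, true_and, decide_eq_true_eq]
  constructor
  · rintro ⟨_, ⟨v, hv, rfl⟩, h⟩
    rw [rel_reach] at h
    rw [h, hv]
  · intro h
    exact ⟨_, ⟨_, h, rfl⟩, (rel_reach _ _ _ _ _ _).2 rfl⟩

theorem trans_len (V : Type) [Fintype V] (B : BDD (V ⊕ V)) :
    (trans V B).len ≤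
      (10 * B.size) ^ (Nat.clog 2 B.size + 1) * (24 * Fintype.card V + 19) := by
  classical
  have hN : 1 ≤ B.size := Nat.one_le_iff_ne_zero.2 (fun h => by
    have := B.root.2; omega)
  set K := (10 * B.size) ^ (Nat.clog 2 B.size) * (24 * Fintype.card V + 19) with hK
  have hK1 : 19 ≤ K := by
    have h1 : 1 ≤ (10 * B.size) ^ (Nat.clog 2 B.size) := Nat.one_le_pow _ _ (by omega)
    calc 19 ≤ 1 * (24 * Fintype.card V + 19) := by omega
      _ ≤ K := Nat.mul_le_mul_right _ h1
  have h := len_unions (((List.finRange B.size).filter fun v => B.node v = Sum.inl true).map fun v =>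
    reach B (Nat.clog 2 B.size) B.root v) K (by
      intro π hπ
      simp only [List.mem_map] at hπ
      obtain ⟨w, _, rfl⟩ := hπ
      exact len_reach _ _ _ _)
  have hl : (((List.finRange B.size).filter fun v => B.node v = Sum.inl true).map fun v =>
    reach B (Nat.clog 2 B.size) B.root v).length ≤ B.size := by
    rw [List.length_map]
    exact (List.length_filter_le _ _).trans (by simp)
  calc (trans V B).len ≤ _ := h
    _ ≤ B.size * (K + 3) + 2 := by gcongr
    _ ≤ 10 * B.size * K := by nlinarith
    _ = (10 * B.size) ^ (Nat.clog 2 B.size + 1) * (24 * Fintype.card V + 19) := by rw [hK]; ring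

/-! ### Subexponential growth -/

theorem growth (a : ℕ) (c δ : ℝ) (hc : 0 < c) (hδ : 0 < δ) :
    ∃ N₀ : ℕ, ∀ N : ℕ, N₀ ≤ N →
      (((10 * N) ^ (Nat.clog 2 N + 1) * (24 * N ^ a + 19) : ℕ) : ℝ) < 2 ^ (c * (N : ℝ) ^ δ) := by
  set r : ℝ := 2 ^ δ with hr
  have hr1 : 1 < r := Real.one_lt_rpow (by norm_num) hδ
  have t2 := tendsto_pow_const_div_const_pow_of_one_lt 2 hr1
  have t1 := tendsto_pow_const_div_const_pow_of_one_lt 1 hr1
  have t0 := tendsto_pow_const_div_const_pow_of_one_lt 0 hr1
  have t : Filter.Tendsto (fun n : ℕ => (n : ℝ) ^ 2 / r ^ n + (5 + a) * ((n : ℝ) ^ 1 / r ^ n) +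
      10 * ((n : ℝ) ^ 0 / r ^ n)) Filter.atTop (nhds ((0 : ℝ) + (5 + a) * 0 + 10 * 0)) :=
    (t2.add (t1.const_mul _)).add (t0.const_mul _)
  simp only [mul_zero, add_zero] at t
  have hpos : 0 < c / r := by positivity
  obtain ⟨L₀, hL₀⟩ := Filter.eventually_atTop.1 (t.eventually (gt_mem_nhds hpos))
  refine ⟨2 ^ (L₀ + 1) , fun N hN => ?_⟩
  set L := Nat.clog 2 N with hL
  have hN2 : 1 < N := lt_of_lt_of_le (by
    have : 2 ^ 1 ≤ 2 ^ (L₀ + 1) := Nat.pow_le_pow_right (by norm_num) (by omega)
    omega) hN
  have hNL : N ≤ 2 ^ L := Nat.le_pow_clog (by norm_num) N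
  have hLN : 2 ^ (L - 1) < N := Nat.pow_pred_clog_lt_self (by norm_num) hN2
  have hLL : L₀ ≤ L := by
    by_contra hneg
    push Not at hneg
    have : 2 ^ L < 2 ^ (L₀ + 1) := Nat.pow_lt_pow_right (by norm_num) (by omega)
    omega
  have hL1 : 1 ≤ L := by
    by_contra hneg
    have : L = 0 := by omega
    rw [this] at hNL
    omega
  have key := hL₀ L hLL
  have h1 : (10 * N) ^ (L + 1) * (24 * N ^ a + 19) ≤ 2 ^ ((4 + L) * (L + 1) + (6 + a * L)) := by
    have e1 : 10 * N ≤ 2 ^ (4 + L) := by
      rw [pow_add]; nlinarith
    have e2 : 24 * N ^ a + 19 ≤ 2 ^ (6 + a * L) := by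
      have e3 : N ^ a ≤ 2 ^ (a * L) := by
        calc N ^ a ≤ (2 ^ L) ^ a := Nat.pow_le_pow_left hNL a
          _ = 2 ^ (a * L) := by rw [← pow_mul, mul_comm]
      have e4 : 1 ≤ 2 ^ (a * L) := Nat.one_le_two_pow
      rw [pow_add]
      omega
    calc (10 * N) ^ (L + 1) * (24 * N ^ a + 19) ≤ (2 ^ (4 + L)) ^ (L + 1) * 2 ^ (6 + a * L) :=
        Nat.mul_le_mul (Nat.pow_le_pow_left e1 _) e2
      _ = 2 ^ ((4 + L) * (L + 1) + (6 + a * L)) := by rw [← pow_mul, ← pow_add]
  have h2 : (((10 * N) ^ (L + 1) * (24 * N ^ a + 19) : ℕ) : ℝ) ≤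
      2 ^ (((4 + L) * (L + 1) + (6 + a * L) : ℕ) : ℝ) := by
    rw [Real.rpow_natCast]
    exact_mod_cast h1
  refine h2.trans_lt ?_
  apply Real.rpow_lt_rpow_of_exponent_lt (by norm_num)
  have hrL : 0 < r ^ L := by positivity
  have h3 : (L : ℝ) ^ 2 + (5 + a) * L + 10 < c / r * r ^ L := by
    have : ((L : ℝ) ^ 2 / r ^ L + (5 + a) * ((L : ℝ) ^ 1 / r ^ L) + 10 * ((L : ℝ) ^ 0 / r ^ L)) =
        ((L : ℝ) ^ 2 + (5 + a) * L + 10) / r ^ L := by
      field_simp
    rw [this, div_lt_iff₀ hrL] at key
    exact key
  have h4 : c / r * r ^ L ≤ c * (N : ℝ) ^ δ := by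
    have e1 : r ^ L = r * r ^ (L - 1) := by
      rw [← pow_succ']; congr 1; omega
    have e2 : r ^ (L - 1) ≤ (N : ℝ) ^ δ := by
      have : r ^ (L - 1) = ((2 : ℝ) ^ (L - 1)) ^ δ := by
        rw [hr, ← Real.rpow_natCast, ← Real.rpow_natCast, ← Real.rpow_mul (by norm_num),
          ← Real.rpow_mul (by norm_num), mul_comm]
      rw [this]
      apply Real.rpow_le_rpow (by positivity) _ hδ.le
      exact_mod_cast hLN.le
    rw [e1]
    calc c / r * (r * r ^ (L - 1)) = c * r ^ (L - 1) := by
          field_simp
      _ ≤ c * (N : ℝ) ^ δ := by gcongr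
  calc (((4 + L) * (L + 1) + (6 + a * L) : ℕ) : ℝ) = (L : ℝ) ^ 2 + (5 + a) * L + 10 := by
        push_cast; ring
    _ < c / r * r ^ L := h3
    _ ≤ c * (N : ℝ) ^ δ := h4

/-! ### The vocabulary must be bounded -/

/-- The variables assigned in a program. -/
def assigned {V : Type} [DecidableEq V] : Program V → Finset V
  | .setTop p => {p}
  | .setBot p => {p}
  | .test _ => ∅
  | .union π ρ => assigned π ∪ assigned ρ
  | .comp π ρ => assigned π ∪ assigned ρ
  | .inter π ρ => assigned π ∪ assigned ρ

theorem rel_assigned {V : Type} [DecidableEq V] (π : Program V) (s t : Set V) (h : π.Rel s t)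
    (p : V) (hp : p ∉ assigned π) : p ∈ t ↔ p ∈ s := by
  induction π generalizing s t with
  | setTop q =>
    simp only [Program.Rel] at h
    simp only [assigned, Finset.mem_singleton] at hp
    rw [h]; simp [hp]
  | setBot q =>
    simp only [Program.Rel] at h
    simp only [assigned, Finset.mem_singleton] at hp
    rw [h]; simp [hp]
  | test β => rw [h.1]
  | union π ρ ih1 ih2 =>
    simp only [assigned, Finset.mem_union, not_or] at hp
    rcases h with h | h
    · exact ih1 s t h hp.1
    · exact ih2 s t h hp.2
  | comp π ρ ih1 ih2 =>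
    simp only [assigned, Finset.mem_union, not_or] at hp
    obtain ⟨r, h1, h2⟩ := h
    rw [ih2 r t h2 hp.2, ih1 s r h1 hp.1]
  | inter π ρ ih1 ih2 =>
    simp only [assigned, Finset.mem_union, not_or] at hp
    exact ih1 s t h.1 hp.1

theorem card_assigned {V : Type} [DecidableEq V] (π : Program V) :
    (assigned π).card ≤ π.len := by
  induction π with
  | setTop q => simp [assigned, Program.len]
  | setBot q => simp [assigned, Program.len]
  | test β => simp [assigned, Program.len]
  | union π ρ ih1 ih2 =>
    have := Finset.card_union_le (assigned π) (assigned ρ)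
    simp only [assigned, Program.len]; omega
  | comp π ρ ih1 ih2 =>
    have := Finset.card_union_le (assigned π) (assigned ρ)
    simp only [assigned, Program.len]; omega
  | inter π ρ ih1 ih2 =>
    have := Finset.card_union_le (assigned π) (assigned ρ)
    simp only [assigned, Program.len]; omega

theorem card_le_of_universal {V : Type} [Fintype V] (π : Program V) (h : ∀ s t, π.Rel s t) :
    Fintype.card V ≤ π.len := by
  classical
  have : (Finset.univ : Finset V) ⊆ assigned π := by
    intro p _
    by_contra hp
    have := rel_assigned π ∅ Set.univ (h _ _) p hp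
    simp at this
  calc Fintype.card V = (Finset.univ : Finset V).card := rfl
    _ ≤ (assigned π).card := Finset.card_le_card this
    _ ≤ π.len := card_assigned π

/-- The diagram with `N` nodes, all of them the leaf `1`. -/
noncomputable def full (m N : ℕ) (hN : 0 < N) : BDD (Fin m ⊕ Fin m) where
  size := N
  root := ⟨0, hN⟩
  node := fun _ => Sum.inl true
  order := LinearOrder.lift' (Fintype.equivFin (Fin m ⊕ Fin m)) (Fintype.equivFin _).injective
  ordered := by intro u w l h hu; simp at hu

theorem card_le_size {V : Type} [Fintype V] (B : BDD (V ⊕ V))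
    (h : ∀ p : V, ∃ u l h, B.node u = Sum.inr (Sum.inl p, l, h) ∨
      B.node u = Sum.inr (Sum.inr p, l, h)) : Fintype.card V ≤ B.size := by
  choose f l g hf using h
  have hinj : Function.Injective f := by
    intro p q hpq
    have h1 := hf p
    have h2 := hf q
    rw [hpq] at h1
    rcases h1 with h1 | h1 <;> rcases h2 with h2 | h2 <;> rw [h1] at h2 <;> simp at h2 <;>
      exact h2.1
  simpa using Fintype.card_le_of_injective f hinj

/-- **Theorem.** (1) There is a correct translation of ordered BDDs to mental programs such that the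
program of a BDD with `N` nodes over the vocabulary `V ∪ V'` has length at most
`(10 N) ^ (⌈log₂ N⌉ + 1) * (24 |V| + 19)`. (2) Hence its length is below `2 ^ (c N ^ δ)`, for all
constants `c, δ > 0` and all but finitely many `N`, for all BDDs with `|V| ≤ N ^ a` (`a` constant).
(3) `|V| ≤ N` if every variable occurs, possibly primed, in the BDD. (4) A bound on the vocabulary is
needed: every correct translation has an output of length at least `2 ^ N` on some BDD with `N`
nodes, namely on a constant one over a vocabulary of size `2 ^ N`. -/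
theorem result :
    (∃ τ : Translation, τ.Correct ∧
      (∀ (V : Type) [Fintype V] (B : BDD (V ⊕ V)), (τ V B).len ≤
        (10 * B.size) ^ (Nat.clog 2 B.size + 1) * (24 * Fintype.card V + 19)) ∧
      ∀ (a : ℕ) (c δ : ℝ), 0 < c → 0 < δ → ∃ N₀ : ℕ, ∀ (V : Type) [Fintype V] (B : BDD (V ⊕ V)),
        N₀ ≤ B.size → Fintype.card V ≤ B.size ^ a →
          ((τ V B).len : ℝ) < 2 ^ (c * (B.size : ℝ) ^ δ)) ∧
    (∀ (V : Type) [Fintype V] (B : BDD (V ⊕ V)),
      (∀ p : V, ∃ u l h, B.node u = Sum.inr (Sum.inl p, l, h) ∨
        B.node u = Sum.inr (Sum.inr p, l, h)) → Fintype.card V ≤ B.size) ∧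
    ∀ τ : Translation, τ.Correct → ∀ N : ℕ, 0 < N →
      ∃ (V : Type) (_ : Fintype V) (B : BDD (V ⊕ V)), B.size = N ∧ 2 ^ N ≤ (τ V B).len := by
  refine ⟨⟨trans, trans_correct, trans_len, ?_⟩, fun V _ B h => card_le_size B h, ?_⟩
  · intro a c δ hc hδ
    obtain ⟨N₀, hN₀⟩ := growth a c δ hc hδ
    refine ⟨N₀, fun V _ B hB hV => lt_of_le_of_lt ?_ (hN₀ B.size hB)⟩
    have h1 := trans_len V B
    have h2 : (10 * B.size) ^ (Nat.clog 2 B.size + 1) * (24 * Fintype.card V + 19) ≤
        (10 * B.size) ^ (Nat.clog 2 B.size + 1) * (24 * B.size ^ a + 19) := by gcongr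
    exact_mod_cast h1.trans h2
  · intro τ hτ N hN
    refine ⟨Fin (2 ^ N), inferInstance, full (2 ^ N) N hN, rfl, ?_⟩
    have := card_le_of_universal (τ (Fin (2 ^ N)) (full (2 ^ N) N hN)) (fun s t =>
      (hτ _ _ s t).2 ⟨0, rfl⟩)
    simpa using this

end Pool.Agent.Results.MP_811ee8_lc.QuasiPolynomial
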